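import Pool.Agent.H.MP_3d4caa_nt.C

open MvPolynomial IntermediateField Filter Pool.Agent.H.MP_3d4caa_nt
open scoped ENNReal

namespace Pool.Agent.Results.MP_3d4caa_nt.Exact

abbrev Qb : Type := AlgebraicClosure ℚ

lemma intg (a : Qb) : IsIntegral ℚ a := ((AlgebraicClosure.isAlgebraic ℚ).isAlgebraic a).isIntegral

/-- Absolute logarithmic Weil height of a tuple, computed in the field of its coordinates. -/
noncomputable def h {ι : Type} [Finite ι] (x : ι → Qb) : ℝ :=
  haveI : FiniteDimensional ℚ (adjoin ℚ (Set.range x)) :=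
    finiteDimensional_adjoin fun a _ => intg a
  haveI : NumberField (adjoin ℚ (Set.range x)) := {}
  Height.logHeight (fun i => (⟨x i, subset_adjoin _ _ ⟨i, rfl⟩⟩ : adjoin ℚ (Set.range x))) /
    Module.finrank ℚ (adjoin ℚ (Set.range x))

abbrev Map (N : ℕ) : Type := Fin (N + 1) → MvPolynomial (Fin (N + 1)) Qb

/-- Homogeneous coordinates of `f(x)`. -/
noncomputable def ap {N : ℕ} (f : Map N) (x : Fin (N + 1) → Qb) : Fin (N + 1) → Qb :=
  fun i => eval x (f i)

/-- Forms of degree `d` without common factor. -/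
def IsRat {N : ℕ} (d : ℕ) (f : Map N) : Prop :=
  (∀ i, (f i).IsHomogeneous d) ∧ ∀ g, (∀ i, g ∣ f i) → IsUnit g

/-- The image lies on no hypersurface. -/
def Dominant {N : ℕ} (f : Map N) : Prop :=
  ∀ (G : MvPolynomial (Fin (N + 1)) Qb) (m : ℕ), G.IsHomogeneous m → G ≠ 0 →
    ∃ x, x ≠ 0 ∧ ap f x ≠ 0 ∧ eval (ap f x) G ≠ 0

/-- The Zariski open set off the common zeros of `S`. -/
def U {N : ℕ} (S : Set (MvPolynomial (Fin (N + 1)) Qb)) : Set (Fin (N + 1) → Qb) :=
  {x | x ≠ 0 ∧ ∃ G ∈ S, eval x G ≠ 0}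

noncomputable def mu {N : ℕ} (f : Map N) : ℝ≥0∞ :=
  ⨆ (S : Set (MvPolynomial (Fin (N + 1)) Qb)) (_ : ∀ G ∈ S, ∃ m, G.IsHomogeneous m)
    (_ : (U S).Nonempty),
    liminf (fun x => ENNReal.ofReal (h (ap f x) / h x))
      (comap h atTop ⊓ principal (U S ∩ {x | ap f x ≠ 0}))

noncomputable def muBar (N d : ℕ) : ℝ≥0∞ :=
  ⨅ (f : Map N) (_ : IsRat d f) (_ : Dominant f), mu f

lemma hK {K ι : Type} [Field K] [NumberField K] [Finite ι] (σ : K →+* Qb) (w : ι → K) :
    h (fun i => σ (w i)) = Height.logHeight w / Module.finrank ℚ K := by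
  have : FiniteDimensional ℚ (adjoin ℚ (Set.range fun i => σ (w i))) :=
    finiteDimensional_adjoin fun a _ => intg a
  have : NumberField (adjoin ℚ (Set.range fun i => σ (w i))) := {}
  have hle : adjoin ℚ (Set.range fun i => σ (w i)) ≤ σ.toRatAlgHom.fieldRange :=
    adjoin_le_iff.2 (by rintro _ ⟨i, rfl⟩; exact ⟨w i, rfl⟩)
  let τ := (σ.toRatAlgHom.equivFieldRange.symm.toAlgHom.comp (inclusion hle)).toRingHom
  refine (ext_inv τ _).symm.trans ?_
  congr 2
  funext i
  exact (AlgEquiv.symm_apply_eq σ.toRatAlgHom.equivFieldRange).2 (Subtype.ext rfl)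

lemma h0 {ι : Type} [Finite ι] (x : ι → Qb) : 0 ≤ h x := by
  have : FiniteDimensional ℚ (adjoin ℚ (Set.range x)) := finiteDimensional_adjoin fun a _ => intg a
  have : NumberField (adjoin ℚ (Set.range x)) := {}
  exact div_nonneg (Height.logHeight_nonneg _) (Nat.cast_nonneg _)

lemma hZ {m : ℕ} (x : Fin (m + 1) → ℤ) (hx : x 0 = 1) :
    h (fun i => (x i : Qb)) = Real.log ↑(⨆ i, |x i|) := by
  have := hK (algebraMap ℚ Qb) fun i => (x i : ℚ)
  simp only [map_intCast, Module.finrank_self, Nat.cast_one, div_one] at this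
  rw [this]
  refine Rat.logHeight_eq_max_abs_of_gcd_eq_one ?_
  rw [← Finset.normalize_gcd, normalize_eq_one]
  exact isUnit_of_dvd_one (hx ▸ Finset.gcd_dvd (Finset.mem_univ 0))

lemma habs {m e : ℕ} {ι : Type} [Fintype ι] (A : (Fin e → ι) → Polynomial Qb) :
    ∃ C, ∀ (x : Fin m → Qb) (y : ι → Qb), y ≠ 0 → rho A y ≠ 0 → ell x ∣ rho A y →
      h x ≤ C + e * h y := by
  classical
  obtain ⟨D, hD⟩ := (Set.finite_range fun I => (A I).natDegree).bddAbove
  let a : Fin (D + 1) × (Fin e → ι) → Qb := fun p => (A p.2).coeff p.1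
  refine ⟨Real.log ((D + 1) * 4 ^ D) + Real.log (Nat.card (Fin e → ι)) + h a,
    fun x y hy h1 h2 => ?_⟩
  have e1 : ell (fun j => ∑ I, a (j, I) * ∏ l, y (I l)) = rho A y := by
    rw [← ell_of (D := D) (rho A y) (Polynomial.natDegree_sum_le_of_forall_le _ _ fun I _ =>
      (Polynomial.natDegree_mul_C_le _ _).trans (hD ⟨I, rfl⟩))]
    congr 1
    funext j
    rw [rho, Polynomial.finsetSum_coeff]
    simp only [Polynomial.coeff_mul_C, a]
  let S := Set.range x ∪ Set.range y ∪ Set.range a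
  have : Finite S := (((Set.finite_range x).union (Set.finite_range y)).union (Set.finite_range a))
  have : FiniteDimensional ℚ (adjoin ℚ S) :=
    finiteDimensional_adjoin fun a _ => intg a
  have : NumberField (adjoin ℚ S) := {}
  let x' : Fin m → adjoin ℚ S := fun i => ⟨x i, subset_adjoin _ _ (.inl (.inl ⟨i, rfl⟩))⟩
  let y' : ι → adjoin ℚ S := fun i => ⟨y i, subset_adjoin _ _ (.inl (.inr ⟨i, rfl⟩))⟩
  let a' : _ → adjoin ℚ S := fun i => ⟨a i, subset_adjoin _ _ (.inr ⟨i, rfl⟩)⟩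
  let σ := algebraMap (adjoin ℚ S) Qb
  have em : ∀ {k : ℕ} (w : Fin k → adjoin ℚ S), (ell w).map σ = ell fun i => σ (w i) := by
    intro k w
    simp only [ell, Polynomial.map_sum, Polynomial.map_monomial]
  have e2 : (ell fun j => ∑ I, a' (j, I) * ∏ l, y' (I l)).map σ = rho A y := by
    rw [em, ← e1]
    simp only [map_sum, map_mul, map_prod]
    rfl
  have := mainK x' y' (fun h => hy (funext fun i => congrArg σ (congrFun h i))) a' (fun h => h1 (by
    rw [← e2, h]; simp [ell])) (by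
    rw [← Polynomial.map_dvd_map' σ, e2, em]; exact h2)
  rwa [← hK σ, ← hK σ, ← hK σ] at this

lemma pt {m k : ℕ} {G : MvPolynomial (Fin (m + 1)) Qb} (hG : G.IsHomogeneous k) (h : G ≠ 0) :
    ∃ x, x 0 = 1 ∧ eval x G ≠ 0 := by
  obtain ⟨c, hc, hc0⟩ : ∃ c : Fin (m + 1) → Qb, c 0 ≠ 0 ∧ eval c G ≠ 0 := by
    by_contra! h1
    exact h (funext_set (fun _ => {0}ᶜ) (fun _ => (Set.finite_singleton _).infinite_compl)
      fun x hx => by rw [h1 x (hx 0 trivial), map_zero])
  refine ⟨fun i => (c 0)⁻¹ * c i, inv_mul_cancel₀ hc, ?_⟩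
  obtain ⟨a, rfl⟩ := expand G hG
  have : eval (fun i => (c 0)⁻¹ * c i) (∑ I, C (a I) * ∏ j, X (I j)) =
      (c 0)⁻¹ ^ k * eval c (∑ I, C (a I) * ∏ j, X (I j)) := by
    simp only [map_sum, map_mul, eval_C, map_prod, eval_X, Finset.prod_mul_distrib,
      Finset.prod_const, Finset.card_univ, Fintype.card_fin, Finset.mul_sum, mul_left_comm]
  rw [this]
  exact mul_ne_zero (pow_ne_zero _ (inv_ne_zero hc)) hc0

lemma lower {n d : ℕ} (hd : 0 < d) (f : Map (n + 1)) (hf : IsRat d f) (hD : Dominant f) :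
    ENNReal.ofReal (1 / d ^ n) ≤ mu f := by
  have hi : AlgebraicIndependent Qb f := by
    rw [algebraicIndependent_iff]
    intro P hP
    rw [← sum_homogeneousComponent P]
    refine Finset.sum_eq_zero fun j _ => ?_
    by_contra h1
    obtain ⟨x, -, -, hx⟩ := hD _ j (homogeneousComponent_isHomogeneous j P) h1
    have := congrArg (aeval x) (comp0 hd f hf.1 P hP j)
    rw [aeval_eq_bind₁ f, aeval_bind₁, map_zero] at this
    exact hx this
  obtain ⟨e, he, A, G, hG0, hG, hA⟩ := geo hd f hf.1 hi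
  obtain ⟨C, hC⟩ := habs (m := n + 2) A
  obtain ⟨x, hx, hx0⟩ := pt hG hG0
  refine le_iSup_of_le {G} (le_iSup₂_of_le (fun _ h => ⟨_, h ▸ hG⟩)
    ⟨x, fun h => by simp [h] at hx, G, rfl, hx0⟩ ?_)
  have ht : Tendsto h (comap h atTop ⊓ principal (U {G} ∩ {x | ap f x ≠ 0})) atTop :=
    tendsto_comap.mono_left inf_le_left
  have h2 := (ENNReal.continuous_ofReal.tendsto _).comp (((tendsto_const_nhds (x := (1 : ℝ))).sub
    ((tendsto_const_nhds (x := C)).div_atTop ht)).div_const ((d : ℝ) ^ n))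
  rw [sub_zero] at h2
  refine le_of_forall_lt_imp_le_of_dense fun a ha => le_liminf_of_le (h := ?_)
  filter_upwards [h2.eventually (lt_mem_nhds ha), ht.eventually_gt_atTop 0,
    mem_inf_of_right (mem_principal_self _)] with x h3 h4 h5
  refine h3.le.trans (ENNReal.ofReal_le_ofReal ?_)
  obtain ⟨⟨-, _, rfl, h6⟩, h7⟩ := h5
  have h8 := hC x _ h7 ((hA x).2 h6) (hA x).1
  have h9 : (e : ℝ) * h (ap f x) ≤ d ^ n * h (ap f x) :=
    mul_le_mul_of_nonneg_right (by exact_mod_cast he) (h0 _)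
  rw [div_le_div_iff₀ (by positivity) h4, sub_mul, div_mul_cancel₀ _ h4.ne']
  linarith

def s {R : Type} [CommRing R] (d : ℕ) (y : ℕ → R) : ℕ → R
  | 0 => 1
  | 1 => y 1
  | j + 2 => y (j + 2) - s d y (j + 1) ^ d

lemma s_map {R T : Type} [CommRing R] [CommRing T] (φ : R →+* T) (d : ℕ) (y : ℕ → R) :
    ∀ j, φ (s d y j) = s d (fun i => φ (y i)) j
  | 0 => map_one φ
  | 1 => rfl
  | j + 2 => by simp only [s, map_sub, map_pow, s_map φ d y (j + 1)]

noncomputable def ex (n d : ℕ) : Map (n + 1) := fun j =>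
  X j * X 0 ^ (d - 1) + if 2 ≤ (j : ℕ) then X ⟨j - 1, by omega⟩ ^ d else 0

lemma ev_ex (n d : ℕ) (y : ℕ → Qb) :
    ap (ex n d) (fun i => s d y i) = fun j : Fin (n + 2) => if (j : ℕ) = 0 then 1 else y j := by
  funext ⟨j, hj⟩
  match j, hj with
  | 0, _ => simp [ap, ex, s]
  | 1, _ => simp [ap, ex, s]
  | j + 2, _ => simp [ap, ex, s]

lemma ex_rat {n d : ℕ} (hn : 1 ≤ n) (hd : 2 ≤ d) : IsRat d (ex n d) := by
  refine ⟨fun j => IsHomogeneous.add ?_ ?_, fun g hg => ?_⟩
  · have := (isHomogeneous_X Qb j).mul (isHomogeneous_X_pow (R := Qb) (0 : Fin (n + 2)) (d - 1))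
    rwa [show 1 + (d - 1) = d by omega] at this
  · split_ifs
    · exact isHomogeneous_X_pow _ _
    · exact isHomogeneous_zero _ _ _
  · have h1 := hg 0
    simp only [ex, Fin.val_zero, ← pow_succ'] at h1
    rw [if_neg (by omega), add_zero] at h1
    obtain ⟨i, -, hi⟩ := (dvd_prime_pow X_prime _).1 h1
    rcases i with _ | i
    · exact associated_one_iff_isUnit.1 (by simpa using hi)
    · have := map_dvd (eval fun j => if j = 0 then 0 else 1)
        ((dvd_pow_self _ i.succ_ne_zero).trans (hi.symm.dvd.trans (hg ⟨2, by omega⟩)))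
      simp [ex, show d - 1 ≠ 0 by omega] at this

lemma ex_dom (n d : ℕ) : Dominant (ex n d) := by
  intro G m hG h
  obtain ⟨y, hy, hy0⟩ := pt hG h
  have e := ev_ex n d fun j => if h : j < n + 2 then y ⟨j, h⟩ else 0
  have e2 : (fun j : Fin (n + 2) => if (j : ℕ) = 0 then 1 else
      if h : (j : ℕ) < n + 2 then y ⟨j, h⟩ else 0) = y := by
    funext j
    split_ifs with h1 h2
    · rw [← hy]; congr 1; exact Fin.ext h1.symm
    · rfl
    · exact absurd j.2 h2
  rw [e2] at e
  refine ⟨_, fun h => ?_, ?_, e.symm ▸ hy0⟩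
  · exact one_ne_zero (congrFun h 0)
  · rw [e]; rintro rfl; simp at hy

lemma grow {n d : ℕ} (hd : 2 ≤ d) (y : ℕ → ℤ) (T : ℤ) (hT : 1 ≤ T) (h1 : y 1 = 2 * T)
    (h : ∀ j < n + 2, |y j| ≤ 2 * T) : ∀ j ≤ n, 2 * T ^ d ^ j ≤ |s d y (j + 1)|
  | 0, _ => by simp only [s, h1, pow_zero, pow_one]; exact le_abs_self _
  | j + 1, hj => by
    have a1 := grow hd y T hT h1 h j (by omega)
    have a2 := h (j + 2) (by omega)
    have a3 : T ≤ T ^ d ^ (j + 1) := le_self_pow₀ hT (by positivity)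
    have a4 : (2 * T ^ d ^ j) ^ d ≤ |s d y (j + 1) ^ d| := by
      rw [abs_pow]; gcongr
    have a5 : (2 : ℤ) ^ 2 ≤ 2 ^ d := pow_le_pow_right₀ one_le_two hd
    rw [mul_pow, ← pow_mul, ← pow_succ] at a4
    have a6 := abs_sub_abs_le_abs_sub (s d y (j + 1) ^ d) (y (j + 2))
    rw [abs_sub_comm] at a6
    have : s d y (j + 1 + 1) = y (j + 2) - s d y (j + 1) ^ d := rfl
    rw [this]
    nlinarith

lemma line {n k : ℕ} (d : ℕ) {G : MvPolynomial (Fin (n + 2)) Qb} (hG : G.IsHomogeneous k)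
    (h : G ≠ 0) : ∃ y : ℕ → ℤ, ∀ᶠ T : ℕ in atTop,
      eval (fun i : Fin (n + 2) => ((s d (Function.update y 1 (2 * T)) i : ℤ) : Qb)) G ≠ 0 := by
  have ev : ∀ {R : Type} [CommRing R] [Algebra Qb R] (φ : R →ₐ[Qb] Qb) (z : ℕ → R),
      φ (aeval (fun i : Fin (n + 2) => s d z i) G) =
        eval (fun i : Fin (n + 2) => s d (fun j => φ (z j)) i) G := by
    intro R _ _ φ z
    rw [← AlgHom.comp_apply, comp_aeval, ← coe_aeval_eq_eval]
    exact congrArg (fun w => aeval w G) (funext fun i => s_map φ.toRingHom d z i)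
  obtain ⟨x, hx, hx0⟩ := pt hG h
  let x' : ℕ → Qb := fun j => if h : j < n + 2 then x ⟨j, h⟩ else 0
  have hs : ∀ j, s d (fun j => x' j + if 2 ≤ j then x' (j - 1) ^ d else 0) j = x' j := by
    intro j
    induction j using Nat.strong_induction_on with
    | _ j ih =>
      match j, ih with
      | 0, _ => simp [s, x', hx]
      | 1, _ => simp [s]
      | j + 2, ih => rw [s, ih (j + 1) (by omega)]; simp
  obtain ⟨y, hy⟩ : ∃ y : ℕ → ℤ, eval (fun i : Fin (n + 2) => s d (fun j => (y j : Qb)) i) G ≠ 0 := by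
    by_contra! h1
    have : aeval (fun i : Fin (n + 2) => s d (X : ℕ → MvPolynomial ℕ Qb) i) G = 0 := by
      refine funext_set (fun _ => Set.range (Int.cast : ℤ → Qb))
        (fun _ => Set.infinite_range_of_injective Int.cast_injective) fun z hz => ?_
      choose y hy using fun i => hz i trivial
      have := ev (aeval z) (X : ℕ → MvPolynomial ℕ Qb)
      simp only [aeval_X, ← hy, h1] at this
      rw [map_zero]
      exact this
    have h2 := ev (aeval fun j => x' j + if 2 ≤ j then x' (j - 1) ^ d else 0)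
      (X : ℕ → MvPolynomial ℕ Qb)
    simp only [this, map_zero, aeval_X, hs] at h2
    exact hx0 (by simpa [x'] using h2.symm)
  refine ⟨y, ?_⟩
  let p := aeval (fun i : Fin (n + 2) => s d (Function.update
    (fun j => (y j : Polynomial Qb)) 1 Polynomial.X) i) G
  have hp : ∀ t : ℤ, Polynomial.aeval (t : Qb) p =
      eval (fun i : Fin (n + 2) => s d (fun j => (Function.update y 1 t j : Qb)) i) G := by
    intro t
    rw [ev]
    congr 3
    funext i
    congr 1
    funext j
    by_cases hj : j = 1 <;> simp [hj]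
  have hp0 : p ≠ 0 := fun h => hy (by
    have := hp (y 1)
    rw [h, map_zero, Function.update_eq_self] at this
    exact this.symm)
  have hinj : Function.Injective fun T : ℕ => ((2 * T : ℤ) : Qb) := fun a b hab => by
    have := Int.cast_injective hab
    omega
  rw [← Nat.cofinite_eq_atTop]
  refine ((p.rootSet_finite Qb).preimage hinj.injOn).subset fun T hT => ?_
  simp only [Set.mem_compl_iff, Set.mem_ofPred_eq, not_not] at hT
  refine Polynomial.mem_rootSet.2 ⟨hp0, (hp _).trans ?_⟩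
  rw [← hT]
  congr 2
  funext i
  exact (s_map (Int.castRingHom Qb) d _ i).symm

lemma upper {n d : ℕ} (hd : 2 ≤ d) : mu (ex n d) ≤ ENNReal.ofReal (1 / d ^ n) := by
  refine iSup_le fun S => iSup₂_le fun hS ⟨x, _, G, hG, hx⟩ => ?_
  obtain ⟨k, hk⟩ := hS G hG
  obtain ⟨y, hy⟩ := line d hk fun h => hx (by rw [h, map_zero])
  obtain ⟨B, hB⟩ := ((Set.finite_lt_nat (n + 2)).image fun j => |y j|).bddAbove
  let u : ℕ → Fin (n + 2) → Qb := fun T i => ((s d (Function.update y 1 (2 * T)) i : ℤ) : Qb)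
  have hu : ∀ T, ap (ex n d) (u T) = fun j : Fin (n + 2) =>
      ((if (j : ℕ) = 0 then 1 else Function.update y 1 (2 * T) j : ℤ) : Qb) := fun T => by
    have := ev_ex n d fun j => (Function.update y 1 (2 * T) j : ℤ)
    simp only [Int.cast_ite, Int.cast_one]
    rw [← this]
    congr 1
    funext i
    exact s_map (Int.castRingHom Qb) d _ i
  have hl : Tendsto (fun T : ℕ => Real.log T) atTop atTop :=
    Real.tendsto_log_atTop.comp tendsto_natCast_atTop_atTop
  have hdn : (0 : ℝ) < d ^ n := by positivity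
  have key : ∀ᶠ T : ℕ in atTop, d ^ n * Real.log T ≤ h (u T) ∧
      h (ap (ex n d) (u T)) ≤ Real.log 2 + Real.log T := by
    filter_upwards [eventually_ge_atTop 1, eventually_ge_atTop B.toNat] with T h1 h2
    have h3 : ∀ j < n + 2, |Function.update y 1 (2 * T) j| ≤ 2 * T := fun j hj => by
      by_cases h : j = 1
      · rw [h, Function.update_self, abs_of_nonneg (by positivity)]
      · rw [Function.update_of_ne h]
        have := hB ⟨j, hj, rfl⟩
        simp only at this
        omega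
    have hT : (0 : ℝ) < T := by exact_mod_cast h1
    constructor
    · rw [hZ _ rfl]
      have h4 := grow hd _ T (by omega) (Function.update_self ..) h3 n le_rfl
      have h5 := Finite.le_ciSup (fun i : Fin (n + 2) => |s d (Function.update y 1 (2 * T)) i|)
        (Fin.last _)
      have h6 : (T : ℤ) ^ d ^ n ≤ 2 * T ^ d ^ n := le_mul_of_one_le_left (by positivity) one_le_two
      rw [← Nat.cast_pow, ← Real.log_pow]
      exact Real.log_le_log (by positivity) (by exact_mod_cast h6.trans (h4.trans h5))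
    · rw [hu, hZ _ rfl, ← Real.log_mul two_ne_zero hT.ne']
      refine Real.log_le_log ?_ ?_
      · exact_mod_cast Finite.le_ciSup_of_le (a := (1 : ℤ)) (0 : Fin (n + 2)) le_rfl
      · have : (⨆ j : Fin (n + 2), |if (j : ℕ) = 0 then 1 else Function.update y 1 (2 * T) j|) ≤
            (2 * T : ℤ) := ciSup_le fun j => by
          split_ifs
          · rw [abs_one]; omega
          · exact h3 _ j.2
        exact_mod_cast this
  have ht : Tendsto u atTop (comap h atTop ⊓ principal (U S ∩ {x | ap (ex n d) x ≠ 0})) := by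
    refine tendsto_inf.2 ⟨tendsto_comap_iff.2 (tendsto_atTop_mono' _ (key.mono fun T h => h.1)
      (hl.const_mul_atTop hdn)), tendsto_principal.2 (hy.mono fun T hT =>
        ⟨⟨fun h => ?_, G, hG, hT⟩, fun h => ?_⟩)⟩
    · simpa [u, s] using congrFun h 0
    · rw [hu] at h; simpa using congrFun h 0
  have h2 := (ENNReal.continuous_ofReal.tendsto _).comp ((((tendsto_const_nhds
    (x := Real.log 2)).div_atTop hl).add_const 1).div_const ((d : ℝ) ^ n))
  rw [zero_add] at h2
  refine le_of_forall_gt_imp_ge_of_dense fun a ha =>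
    liminf_le_of_frequently_le' (ht.frequently (Eventually.frequently ?_))
  filter_upwards [h2.eventually (gt_mem_nhds ha), key, hl.eventually_gt_atTop 0] with T h3 h4 h5
  refine le_trans (ENNReal.ofReal_le_ofReal ?_) h3.le
  beta_reduce
  rw [div_add_one h5.ne', div_div, mul_comm]
  exact div_le_div₀ (by positivity) h4.2 (by positivity) h4.1

theorem result (N d : ℕ) (hN : 2 ≤ N) (hd : 2 ≤ d) : muBar N d = ((d : ℝ≥0∞) ^ (N - 1))⁻¹ := by
  obtain ⟨n, rfl⟩ : ∃ n, N = n + 1 := ⟨N - 1, by omega⟩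
  have e : ((d : ℝ≥0∞) ^ (n + 1 - 1))⁻¹ = ENNReal.ofReal (1 / d ^ n) := by
    rw [one_div, ENNReal.ofReal_inv_of_pos (by positivity), ENNReal.ofReal_pow (Nat.cast_nonneg _),
      ENNReal.ofReal_natCast, Nat.add_sub_cancel]
  rw [e]
  exact le_antisymm (iInf_le_of_le (ex n d) (iInf₂_le_of_le (ex_rat (by omega) hd) (ex_dom n d)
    (upper hd))) (le_iInf fun f => le_iInf₂ fun hf hD => lower (by omega) f hf hD)

end Pool.Agent.Results.MP_3d4caa_nt.Exact
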